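import Mathlib
import Pool.Agent.H13.TD.RadMain

/-!
# Kernels of triangular derivations with a slice: `(D x, D y)` radical

Let `R = ℂ[a,b]`, let `p, q ∈ R` generate a radical ideal of `R`, and let `D` be an
`R`-derivation of `R[x,y,z]` with `D x = p`, `D y ∈ q + p R[x]`, `D z ∈ R[x,y]` arbitrary.
If `D` has a slice then `ker D` is a polynomial ring in two variables over `R`.

The proof.  At an isolated common zero of `p` and `q` the derivation has a local normal form with
constant coefficients, and orbits through a small circle around the zero show that this normal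
form is a non-zero constant (the case `ℂ[p,q] = R` of this argument is due to helper41,
`Pool.Agent.H41.TS`).  Globally `D z ∈ u + D (R[x,y])` with `u ∈ R` and `(p, q, u) = R`, and the
row `(p, q, u)` is completed to an invertible matrix: after an elementary change `p`, `q` are
coprime, so that `u` is a square modulo `(p, q)`, and the formula of Swan–Towber and Krusemeyer
applies.
-/

set_option autoImplicit false

open MvPolynomial

theorem Pool.Agent.Results.MP_ef2f71_ag.RadicalPair.result
    (p q : MvPolynomial (Fin 2) ℂ) (hpq : (Ideal.span {p, q}).IsRadical)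
    (D : Derivation (MvPolynomial (Fin 2) ℂ) (MvPolynomial (Fin 3) (MvPolynomial (Fin 2) ℂ))
      (MvPolynomial (Fin 3) (MvPolynomial (Fin 2) ℂ)))
    (hx : D (X 0) = C p)
    (hy : ∃ u : Polynomial (MvPolynomial (Fin 2) ℂ),
      D (X 1) = C q + C p * Polynomial.aeval (X 0) u)
    (hz : D (X 2) ∈ Algebra.adjoin (MvPolynomial (Fin 2) ℂ)
      {(X 0 : MvPolynomial (Fin 3) (MvPolynomial (Fin 2) ℂ)),
       (X 1 : MvPolynomial (Fin 3) (MvPolynomial (Fin 2) ℂ))})
    (hs : ∃ s : MvPolynomial (Fin 3) (MvPolynomial (Fin 2) ℂ), D s = 1) :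
    ∃ φ : MvPolynomial (Fin 2) (MvPolynomial (Fin 2) ℂ) →ₐ[MvPolynomial (Fin 2) ℂ]
        MvPolynomial (Fin 3) (MvPolynomial (Fin 2) ℂ),
      Function.Injective φ ∧
      ∀ f : MvPolynomial (Fin 3) (MvPolynomial (Fin 2) ℂ), D f = 0 ↔ f ∈ φ.range :=
  (Pool.Agent.H13.TD.main_rad hpq hx hy hz).2 hs
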